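import Pool.Agent.SymC.Defs
import Pool.Agent.Helper18.Support2

/-!
# Statements of the modules
-/

set_option autoImplicit false

namespace Pool.Agent.SymC

/-- Sup: a subgroup of the symmetric group on `b` points of index less than `b.choose k` has a
class of more than `b - k` points (`Helper18.cls` is the class for the relation that two points
lie on a common three-cycle of `H`). -/
def St_Sup : Prop :=
  ∀ (b : ℕ) (H : Subgroup (Equiv.Perm (Fin b))) (k : ℕ), 1 ≤ k → 256 * k ≤ b →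
    H.index < b.choose k → ∃ i, b < (Pool.Agent.Helper18.cls H i).card + k

/-- Up: a function of the number `w` of ones that depends only on `w.choose i % m`, `i ≤ Q`, and on
`min w (Q + T)` and `min (n - w) (Q + T)` has a symmetric circuit. -/
def St_Up : Prop :=
  ∀ (m n Q T : ℕ) (F : ℕ → Prop), 1 ≤ m → 1 ≤ T →
    (∀ u w, u ≤ n → w ≤ n → (∀ j ≤ Q + T, (j ≤ u ↔ j ≤ w)) →
      (∀ j ≤ Q + T, (j ≤ n - u ↔ j ≤ n - w)) →
      (∀ i ≤ Q, u.choose i % m = w.choose i % m) → (F u ↔ F w)) →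
    ∃ (G : Type) (_ : Fintype G) (C : Circuit (Fin n ⊕ Empty) G),
      Interchangeable C ∧ C.Modular m T ∧ (∀ g, C.level g < 5) ∧
      Fintype.card G ≤ 4 * (∑ j ∈ Finset.range (Q + 1), n.choose j) * (T + 1) +
        2 * (Q + 1) * (T + 1) * (m + 2) + (n + 2) ∧
      Accepts C (fun e => e.elim) F

/-- Num: regularity and the profile. -/
def St_Num : Prop :=
  ∀ (m n k T : ℕ) (F : ℕ → Prop), 2 ≤ m → 1 ≤ k → Regular m n k T F →
    ∀ u w, u ≤ n → w ≤ n → (∀ j ≤ m * k + T, (j ≤ u ↔ j ≤ w)) →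
      (∀ j ≤ m * k + T, (j ≤ n - u ↔ j ≤ n - w)) →
      (∀ i ≤ m * k, u.choose i % m = w.choose i % m) → (F u ↔ F w)

/-- Siz: the size of the circuit. -/
def St_Siz : Prop :=
  ∀ m : ℕ, 2 ≤ m → ∃ K : ℕ, ∀ n k T : ℕ, 1 ≤ n → 1 ≤ k → T ≤ n →
    4 * (∑ j ∈ Finset.range (m * k + 1), n.choose j) * (T + 1) +
      2 * (m * k + 1) * (T + 1) * (m + 2) + (n + 2) ≤ (n + k).choose k ^ K

/-- Low: the lower bound. -/
def St_Low : Prop :=
  ∀ (m n k T : ℕ) (F : ℕ → Prop), 2 ≤ m → 2 ≤ k → 256 * k ≤ n →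
    ∀ (ι G : Type) [Fintype ι] [Fintype G] (C : Circuit (Fin n ⊕ ι) G) (z : ι → Bool),
      C.Modular m T → Accepts C z F →
      Fintype.card G * n.factorial <
        n.choose k * Nat.card {ρ : Equiv.Perm (Fin n) // Extends C ρ} →
      Regular m n k T F

/-- Thr: threshold functions. -/
def St_Thr : Prop :=
  ∀ m : ℕ, 2 ≤ m → ∃ K : ℕ, ∀ (n k T θ : ℕ) (F : ℕ → Prop), 1 ≤ k → (∀ w, F w ↔ θ ≤ w) →
    (n ≤ k ^ m.primeFactors.card → Regular m n k T F) ∧
    (n ≤ 4 * θ → 4 * θ ≤ 3 * n → K * (k ^ m.primeFactors.card + T) ≤ n →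
      ¬ Regular m n k T F)

end Pool.Agent.SymC
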