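import Mathlib
import Pool.Agent.SymC.Stmts

/-!
# Theorem S [Num]: regularity and the profile
-/

set_option autoImplicit false

namespace Pool.Agent.SymC

/-- digits by binomial coefficients -/
theorem num_lucas {p : ℕ} (hp : p.Prime) (i : ℕ) : ∀ u : ℕ, u.choose (p ^ i) ≡ u / p ^ i [MOD p] := by
  haveI := Fact.mk hp
  induction i with
  | zero =>
    intro u
    rw [pow_zero, Nat.choose_one_right, Nat.div_one]
  | succ i ih =>
    intro u
    have h1 : u.choose (p ^ (i + 1)) ≡
        (u % p).choose (p ^ (i + 1) % p) * (u / p).choose (p ^ (i + 1) / p) [MOD p] :=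
      Choose.choose_modEq_choose_mod_mul_choose_div_nat
    have h2 : p ^ (i + 1) % p = 0 := by
      rw [pow_succ]
      exact Nat.mul_mod_left _ _
    have h3 : p ^ (i + 1) / p = p ^ i := by
      rw [pow_succ]
      exact Nat.mul_div_cancel _ hp.pos
    rw [h2, h3, Nat.choose_zero_right, one_mul] at h1
    refine h1.trans ?_
    have h4 := ih (u / p)
    rw [Nat.div_div_eq_div_mul, ← pow_succ'] at h4
    exact h4

/-- numbers with equal digits are congruent -/
theorem num_digits {p u w : ℕ} : ∀ e : ℕ, (∀ i < e, u / p ^ i ≡ w / p ^ i [MOD p]) →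
    u ≡ w [MOD p ^ e] := by
  intro e
  induction e with
  | zero =>
    intro _
    rw [pow_zero]
    exact Nat.modEq_one
  | succ e ih =>
    intro h
    have h1 := ih fun i hi => h i (Nat.lt_succ_of_lt hi)
    have h2 := h e (Nat.lt_succ_self e)
    unfold Nat.ModEq at h1 h2 ⊢
    rw [Nat.mod_pow_succ, Nat.mod_pow_succ, h1, h2]

theorem num_period {m k : ℕ} (hm : m ≠ 0) :
    period m k = ∏ p ∈ m.primeFactors, p ^ (m.factorization p + Nat.log p k) := by
  unfold period
  have h1 : m = ∏ p ∈ m.primeFactors, p ^ m.factorization p := by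
    have h := Nat.prod_factorization_pow_eq_self hm
    rw [Nat.prod_factorization_eq_prod_primeFactors] at h
    exact h.symm
  simp only [pow_add, Finset.prod_mul_distrib]
  rw [← h1]

theorem num_dvd {m k u w : ℕ} (hm : 2 ≤ m) (hk : 1 ≤ k) (huw : u ≤ w)
    (h : ∀ i ≤ m * k, u.choose i % m = w.choose i % m) : period m k ∣ w - u := by
  rw [num_period (by omega)]
  have h1 : ∀ p ∈ m.primeFactors, p ^ (m.factorization p + Nat.log p k) ∣ w - u := by
    intro p hp
    have hpp := Nat.prime_of_mem_primeFactors hp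
    rw [← Nat.modEq_iff_dvd' huw]
    apply num_digits
    intro i hi
    have h2 : p ^ i ≤ m * k := by
      refine (Nat.pow_le_pow_right hpp.pos hi.le).trans ?_
      rw [pow_add]
      exact Nat.mul_le_mul (Nat.le_of_dvd (by omega) (Nat.ordProj_dvd m p))
        (Nat.pow_log_le_self p (by omega))
    have h3 : u.choose (p ^ i) ≡ w.choose (p ^ i) [MOD m] := h _ h2
    exact ((num_lucas hpp i u).symm.trans (h3.of_dvd (Nat.dvd_of_mem_primeFactors hp))).trans
      (num_lucas hpp i w)
  refine Finset.prod_dvd_of_isRelPrime ?_ h1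
  intro p hp q hq hpq
  rw [Function.onFun, ← Nat.coprime_iff_isRelPrime]
  apply Nat.Coprime.pow
  exact (Nat.coprime_primes (Nat.prime_of_mem_primeFactors hp)
    (Nat.prime_of_mem_primeFactors hq)).2 hpq

theorem num_step {m n k T : ℕ} {F : ℕ → Prop} (hF : Regular m n k T F) {u : ℕ}
    (hu : T + 2 * k ≤ u) (t : ℕ) : u + t * period m k + T + 2 * k ≤ n →
    (F u ↔ F (u + t * period m k)) := by
  induction t with
  | zero =>
    intro _
    rw [Nat.zero_mul, Nat.add_zero]
  | succ t ih =>
    intro h
    have h1 : u + (t + 1) * period m k = u + t * period m k + period m k := by ring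
    rw [h1] at h ⊢
    exact (ih (by omega)).trans (hF _ (by omega) h)

theorem num_le {m n k T : ℕ} {F : ℕ → Prop} (hm : 2 ≤ m) (hk : 1 ≤ k)
    (hF : Regular m n k T F) {u w : ℕ} (huw : u ≤ w) (hu : T + 2 * k ≤ u)
    (hw : w + T + 2 * k ≤ n) (h : ∀ i ≤ m * k, u.choose i % m = w.choose i % m) :
    F u ↔ F w := by
  obtain ⟨t, ht⟩ := num_dvd hm hk huw h
  have h1 : w = u + t * period m k := by
    rw [Nat.mul_comm t, ← ht]
    omega
  rw [h1] at hw ⊢
  exact num_step hF hu t hw

theorem thm_Num : St_Num := by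
  intro m n k T F hm hk hF u w hu hw h1 h2 h3
  have hmk : 2 * k ≤ m * k := Nat.mul_le_mul_right k hm
  have hmk2 : 2 ≤ m * k := le_trans (by omega) hmk
  by_cases c1 : u < T + 2 * k
  · have e1 := (h1 u (by omega)).1 le_rfl
    have e2 := h1 (u + 1) (by omega)
    have : u = w := by omega
    rw [this]
  by_cases c2 : w < T + 2 * k
  · have e1 := (h1 w (by omega)).2 le_rfl
    have e2 := h1 (w + 1) (by omega)
    have : u = w := by omega
    rw [this]
  by_cases c3 : n - u < T + 2 * k
  · have e1 := (h2 (n - u) (by omega)).1 le_rfl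
    have e2 := h2 (n - u + 1) (by omega)
    have : u = w := by omega
    rw [this]
  by_cases c4 : n - w < T + 2 * k
  · have e1 := (h2 (n - w) (by omega)).2 le_rfl
    have e2 := h2 (n - w + 1) (by omega)
    have : u = w := by omega
    rw [this]
  rcases Nat.le_total u w with h | h
  · exact num_le hm hk hF h (by omega) (by omega) h3
  · exact (num_le hm hk hF h (by omega) (by omega) fun i hi => (h3 i hi).symm).symm

end Pool.Agent.SymC
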