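import Pool.Agent.SymC.Stmts

/-!
# Symmetric circuits: the size of the circuit
-/

set_option autoImplicit false

namespace Pool.Agent.SymC

theorem Siz_sum (n Q : ℕ) : ∑ j ∈ Finset.range (Q + 1), n.choose j ≤ (n + Q).choose Q := by
  induction Q with
  | zero => simp
  | succ Q ih =>
    rw [Finset.sum_range_succ]
    have h1 : n.choose (Q + 1) ≤ (n + Q).choose (Q + 1) :=
      Nat.choose_le_choose _ (Nat.le_add_right _ _)
    have h2 : (n + (Q + 1)).choose (Q + 1) = (n + Q).choose Q + (n + Q).choose (Q + 1) := by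
      rw [← add_assoc]
      exact Nat.choose_succ_succ _ _
    rw [h2]
    exact add_le_add ih h1

theorem Siz_mul (n a b : ℕ) :
    (n + (a + b)).choose (a + b) ≤ (n + a).choose a * (n + b).choose b := by
  induction b with
  | zero => simp
  | succ b ih =>
    have h1 := Nat.add_one_mul_choose_eq (n + (a + b)) (a + b)
    have h2 := Nat.add_one_mul_choose_eq (n + b) b
    have e1 : n + (a + (b + 1)) = n + (a + b) + 1 := by ring
    have e2 : a + (b + 1) = a + b + 1 := by ring
    have e3 : n + (b + 1) = n + b + 1 := by ring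
    rw [e1, e2, e3]
    have h3 : 0 < (a + b + 1) * (b + 1) := by positivity
    refine Nat.le_of_mul_le_mul_right ?_ h3
    calc (n + (a + b) + 1).choose (a + b + 1) * ((a + b + 1) * (b + 1))
        = (n + (a + b) + 1).choose (a + b + 1) * (a + b + 1) * (b + 1) := by ring
      _ = (n + (a + b) + 1) * (n + (a + b)).choose (a + b) * (b + 1) := by rw [← h1]
      _ ≤ (n + (a + b) + 1) * ((n + a).choose a * (n + b).choose b) * (b + 1) := by gcongr
      _ = ((n + a).choose a * (n + b).choose b) * ((n + (a + b) + 1) * (b + 1)) := by ring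
      _ ≤ ((n + a).choose a * (n + b).choose b) * ((n + b + 1) * (a + b + 1)) := by
          refine Nat.mul_le_mul_left _ ?_
          have h4 : a * (b + 1) ≤ a * (n + b + 1) := Nat.mul_le_mul_left _ (by omega)
          calc (n + (a + b) + 1) * (b + 1) = (n + b + 1) * (b + 1) + a * (b + 1) := by ring
            _ ≤ (n + b + 1) * (b + 1) + a * (n + b + 1) := by omega
            _ = (n + b + 1) * (a + b + 1) := by ring
      _ = (n + a).choose a * ((n + b + 1) * (n + b).choose b) * (a + b + 1) := by ring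
      _ = (n + a).choose a * ((n + b + 1).choose (b + 1) * (b + 1)) * (a + b + 1) := by rw [h2]
      _ = (n + a).choose a * (n + b + 1).choose (b + 1) * ((a + b + 1) * (b + 1)) := by ring

theorem Siz_pow (n k m : ℕ) : (n + m * k).choose (m * k) ≤ (n + k).choose k ^ m := by
  induction m with
  | zero => simp
  | succ m ih =>
    have e : (m + 1) * k = m * k + k := by ring
    rw [e, pow_succ]
    exact (Siz_mul n (m * k) k).trans (Nat.mul_le_mul_right _ ih)

/-- Siz: the size of the circuit. -/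
theorem thm_Siz : St_Siz := by
  intro m hm
  refine ⟨(4 + 2 * m * (m + 2) + 2) + m + 1, ?_⟩
  intro n k T hn hk hT
  obtain ⟨c, hc⟩ : ∃ c, c = (n + k).choose k := ⟨_, rfl⟩
  have hc1 : n + 1 ≤ c := by
    rw [hc, ← Nat.choose_symm_add]
    have h1 : (n + 1).choose n = n + 1 := by rw [Nat.choose_symm_add, Nat.choose_one_right]
    rw [← h1]
    exact Nat.choose_le_choose _ (by omega)
  have hc2 : k + 1 ≤ c := by
    rw [hc]
    have h1 : (k + 1).choose k = k + 1 := by rw [Nat.choose_symm_add, Nat.choose_one_right]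
    rw [← h1]
    exact Nat.choose_le_choose _ (by omega)
  have hc3 : 2 ≤ c := by omega
  rw [← hc]
  have h1 : ∑ j ∈ Finset.range (m * k + 1), n.choose j ≤ c ^ m := by
    rw [hc]
    exact (Siz_sum n (m * k)).trans (Siz_pow n k m)
  have h2 : T + 1 ≤ c := by omega
  have h3 : m * k + 1 ≤ m * c := by
    calc m * k + 1 ≤ m * k + m := by omega
      _ = m * (k + 1) := by ring
      _ ≤ m * c := Nat.mul_le_mul_left _ hc2
  have h4 : c * c ≤ c ^ (m + 1) := by
    rw [← pow_two]
    exact Nat.pow_le_pow_right (by omega) (by omega)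
  have h5 : c ≤ c ^ (m + 1) := Nat.le_self_pow (by omega) c
  have h6 : 4 * (∑ j ∈ Finset.range (m * k + 1), n.choose j) * (T + 1) ≤ 4 * c ^ (m + 1) := by
    calc 4 * (∑ j ∈ Finset.range (m * k + 1), n.choose j) * (T + 1) ≤ 4 * c ^ m * c := by gcongr
      _ = 4 * c ^ (m + 1) := by ring
  have h7 : 2 * (m * k + 1) * (T + 1) * (m + 2) ≤ 2 * m * (m + 2) * c ^ (m + 1) := by
    calc 2 * (m * k + 1) * (T + 1) * (m + 2) ≤ 2 * (m * c) * c * (m + 2) := by gcongr
      _ = 2 * m * (m + 2) * (c * c) := by ring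
      _ ≤ 2 * m * (m + 2) * c ^ (m + 1) := Nat.mul_le_mul_left _ h4
  have h8 : n + 2 ≤ 2 * c ^ (m + 1) := by omega
  have h9 : 4 + 2 * m * (m + 2) + 2 ≤ c ^ (4 + 2 * m * (m + 2) + 2) :=
    (Nat.lt_two_pow_self).le.trans (Nat.pow_le_pow_left hc3 _)
  calc 4 * (∑ j ∈ Finset.range (m * k + 1), n.choose j) * (T + 1) +
      2 * (m * k + 1) * (T + 1) * (m + 2) + (n + 2)
      ≤ 4 * c ^ (m + 1) + 2 * m * (m + 2) * c ^ (m + 1) + 2 * c ^ (m + 1) :=
        add_le_add (add_le_add h6 h7) h8
    _ = (4 + 2 * m * (m + 2) + 2) * c ^ (m + 1) := by ring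
    _ ≤ c ^ (4 + 2 * m * (m + 2) + 2) * c ^ (m + 1) := Nat.mul_le_mul_right _ h9
    _ = c ^ (4 + 2 * m * (m + 2) + 2 + m + 1) := by rw [← pow_add]; ring_nf

end Pool.Agent.SymC
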