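import Pool.Agent.SymC.Stmts
import Pool.Agent.Helper18.Period

/-!
# Threshold functions
-/

set_option autoImplicit false

namespace Pool.Agent.SymC

theorem thm_Thr : St_Thr := by
  intro m hm
  refine ⟨8 * (m + 4), fun n k T θ F hk hF => ⟨fun hn w hw1 hw2 => ?_, fun h1 h2 h3 hreg => ?_⟩⟩
  · exfalso
    have h4 : k ^ m.primeFactors.card < period m k := Pool.Agent.Helper18.pow_lt_period hm
    omega
  · have h4 : period m k ≤ m * k ^ m.primeFactors.card := Pool.Agent.Helper18.period_le hk
    have h5 : k + 1 ≤ period m k := Pool.Agent.Helper18.lt_period hm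
    have h6 : k ≤ k ^ m.primeFactors.card := by
      obtain ⟨p, hp, hpm⟩ := Nat.exists_prime_and_dvd (n := m) (by omega)
      have hmem : p ∈ m.primeFactors := Nat.mem_primeFactors.mpr ⟨hp, hpm, by omega⟩
      exact Nat.le_self_pow (Finset.card_pos.mpr ⟨p, hmem⟩).ne' k
    set Q := k ^ m.primeFactors.card with hQ
    have h7 : 8 * (m + 4) * (Q + T) = 8 * (m * Q) + 32 * Q + 8 * (m * T) + 32 * T := by ring
    rw [h7] at h3
    have h8 := hreg (θ - period m k) (by omega) (by omega)
    rw [Nat.sub_add_cancel (by omega), hF, hF] at h8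
    have h9 := h8.mpr le_rfl
    omega

end Pool.Agent.SymC
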