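import Pool.Agent.SymC.Stmts

/-!
# The strong support theorem
-/

set_option autoImplicit false

namespace Pool.Agent.SymC

open Equiv Equiv.Perm Finset Pool.Agent.Helper18

/-! ### numerical inequalities -/

theorem Sup_two_pow (u : ℕ) : 2 ^ u ≤ u.centralBinom := by
  induction u with
  | zero => simp
  | succ u ih =>
    have h1 := Nat.succ_mul_centralBinom_succ u
    have h2 : (u + 1) * 2 ^ (u + 1) ≤ (u + 1) * (u + 1).centralBinom := by
      rw [h1]
      calc (u + 1) * 2 ^ (u + 1) = 2 * (u + 1) * 2 ^ u := by ring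
        _ ≤ 2 * (2 * u + 1) * 2 ^ u := Nat.mul_le_mul_right _ (by omega)
        _ ≤ _ := Nat.mul_le_mul_left _ ih
    exact Nat.le_of_mul_le_mul_left h2 (by omega)

theorem Sup_two_pow_le {b u : ℕ} (h : 2 * u ≤ b) : 2 ^ u ≤ b.choose u := by
  refine (Sup_two_pow u).trans ?_
  rw [Nat.centralBinom]
  exact Nat.choose_le_choose u h

theorem Sup_four_pow {q : ℕ} (hq : 9 ≤ q) : 4 ^ q ≤ q.factorial := by
  induction q, hq using Nat.le_induction with
  | base => decide
  | succ q hq ih =>
    rw [pow_succ, Nat.factorial_succ, mul_comm]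
    exact Nat.mul_le_mul (by omega) ih

theorem Sup_choose_pow {b k : ℕ} (hb : 64 * k ≤ b) : b.choose k ^ 8 ≤ 2 ^ b := by
  have h1 : 64 ^ (b - k) * b.choose k ≤ 65 ^ b := by
    have h2 := add_pow 1 64 b
    have h3 : (1 : ℕ) ^ k * 64 ^ (b - k) * b.choose k ≤
        ∑ m ∈ Finset.range (b + 1), 1 ^ m * 64 ^ (b - m) * b.choose m :=
      Finset.single_le_sum (f := fun m => 1 ^ m * 64 ^ (b - m) * b.choose m)
        (fun _ _ => Nat.zero_le _) (Finset.mem_range.mpr (by omega))
    rw [one_pow, one_mul] at h3
    norm_num at h2 h3 ⊢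
    rw [h2]
    exact h3
  have h4 : (65 : ℕ) ^ 64 ≤ 4 * 64 ^ 64 := by norm_num
  have h5 : (64 ^ (b - k) * b.choose k) ^ 64 ≤ 64 ^ (64 * (b - k)) * 256 ^ b := by
    calc (64 ^ (b - k) * b.choose k) ^ 64 ≤ (65 ^ b) ^ 64 := Nat.pow_le_pow_left h1 64
      _ = (65 ^ 64) ^ b := by rw [← pow_mul, ← pow_mul, mul_comm]
      _ ≤ (4 * 64 ^ 64) ^ b := Nat.pow_le_pow_left h4 b
      _ = 4 ^ b * 64 ^ (64 * b) := by rw [mul_pow, ← pow_mul]
      _ = 4 ^ b * (64 ^ (64 * (b - k)) * 64 ^ (64 * k)) := by
        rw [← pow_add]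
        congr 2
        omega
      _ ≤ 4 ^ b * (64 ^ (64 * (b - k)) * 64 ^ b) := by
        apply Nat.mul_le_mul_left
        apply Nat.mul_le_mul_left
        exact Nat.pow_le_pow_right (by norm_num) hb
      _ = 64 ^ (64 * (b - k)) * 256 ^ b := by
        rw [show (256 : ℕ) = 4 * 64 by norm_num, mul_pow]
        ring
  rw [mul_pow, ← pow_mul, mul_comm (b - k) 64] at h5
  have h6 := Nat.le_of_mul_le_mul_left h5 (by positivity)
  have h7 : (b.choose k ^ 8) ^ 8 ≤ (2 ^ b) ^ 8 := by
    calc (b.choose k ^ 8) ^ 8 = b.choose k ^ 64 := by rw [← pow_mul]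
      _ ≤ 256 ^ b := h6
      _ = (2 ^ b) ^ 8 := by
        rw [show (256 : ℕ) = 2 ^ 8 by norm_num, ← pow_mul, ← pow_mul, mul_comm]
  exact (Nat.pow_le_pow_iff_left (by norm_num)).mp h7

/-! ### closed sets -/

variable {α : Type} [DecidableEq α] [Fintype α]

/-- unions of classes -/
def Sup_closed (H : Subgroup (Perm α)) (U : Finset α) : Prop :=
  ∀ x ∈ U, ∀ y, Linked H x y → y ∈ U

theorem Sup_closed_cls (H : Subgroup (Perm α)) (i : α) : Sup_closed H (cls H i) := by
  intro x hx y hxy
  rw [mem_cls] at hx ⊢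
  exact hx.trans hxy

theorem Sup_closed_sdiff {H : Subgroup (Perm α)} {U : Finset α} (hU : Sup_closed H U) (i : α) :
    Sup_closed H (U \ cls H i) := by
  intro x hx y hxy
  rw [Finset.mem_sdiff, mem_cls] at hx ⊢
  exact ⟨hU x hx.1 y hxy, fun h => hx.2 (h.trans hxy.symm)⟩

omit [Fintype α] in
theorem Sup_closed_image {H : Subgroup (Perm α)} {U : Finset α} (hU : Sup_closed H U)
    {h : Perm α} (hh : h ∈ H) : Sup_closed H (U.image h) := by
  intro x hx y hxy
  obtain ⟨z, hz, rfl⟩ := Finset.mem_image.mp hx
  refine Finset.mem_image.mpr ⟨h⁻¹ y, ?_, ap_inv h y⟩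
  apply hU z hz
  rw [← linked_of_mem hh, ap_inv]
  exact hxy

/-- a closed set with at least a quarter and at most half of the points -/
theorem Sup_exists_closed (H : Subgroup (Perm α)) (hpos : 0 < Fintype.card α)
    (hcls : ∀ i, 2 * (cls H i).card ≤ Fintype.card α) :
    ∃ U : Finset α, Sup_closed H U ∧ Fintype.card α ≤ 4 * U.card ∧
      2 * U.card ≤ Fintype.card α := by
  classical
  obtain ⟨U, hU, hmin⟩ := Finset.exists_min_image
    (Finset.univ.filter fun U : Finset α => Sup_closed H U ∧ Fintype.card α ≤ 4 * U.card)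
    (fun U => U.card) ⟨Finset.univ, by
      rw [Finset.mem_filter]
      refine ⟨Finset.mem_univ _, fun _ _ _ _ => Finset.mem_univ _, ?_⟩
      rw [Finset.card_univ]
      omega⟩
  rw [Finset.mem_filter] at hU
  refine ⟨U, hU.2.1, hU.2.2, ?_⟩
  by_contra hcon
  have hne : 0 < U.card := by omega
  obtain ⟨x, hx⟩ := Finset.card_pos.mp hne
  have hsub : cls H x ⊆ U := by
    intro y hy
    exact hU.2.1 x hx y (mem_cls.mp hy)
  have hxc : 0 < (cls H x).card := Finset.card_pos.mpr ⟨x, self_mem_cls x⟩
  have hcx := hcls x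
  by_cases h1 : Fintype.card α ≤ 4 * (cls H x).card
  · have h2 := hmin (cls H x) (by
      rw [Finset.mem_filter]
      exact ⟨Finset.mem_univ _, Sup_closed_cls H x, h1⟩)
    omega
  · have h3 := Finset.card_sdiff_of_subset hsub
    have h4 := Finset.card_le_card hsub
    have h2 : ¬ Fintype.card α ≤ 4 * (U \ cls H x).card := by
      intro h5
      have h6 := hmin (U \ cls H x) (by
        rw [Finset.mem_filter]
        exact ⟨Finset.mem_univ _, Sup_closed_sdiff hU.2.1 x, h5⟩)
      omega
    omega

/-- **Strong support theorem.** -/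
theorem Sup_main (H : Subgroup (Perm α)) {k : ℕ} (hk : 1 ≤ k)
    (hb : 256 * k ≤ Fintype.card α) (hidx : H.index < (Fintype.card α).choose k) :
    ∃ i, Fintype.card α < (cls H i).card + k := by
  classical
  by_contra hcon
  push Not at hcon
  set b := Fintype.card α with hbdef
  have hbpos : 0 < b := by omega
  by_cases hbig : ∃ i₀, b < 2 * (cls H i₀).card
  · -- a class with more than half of the points
    obtain ⟨i₀, hi₀⟩ := hbig
    set c := (cls H i₀).card with hc
    have hcov := choose_le_index_mul H (cls H i₀)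
    rw [← hc, ← hbdef] at hcov
    have hmem : ∀ h ∈ H, (cls H i₀).image h = cls H i₀ := by
      intro h hh
      have h1 : (cls H i₀).image h = cls H (h i₀) := by
        ext x
        rw [Finset.mem_image, mem_cls]
        constructor
        · rintro ⟨y, hy, rfl⟩
          rw [linked_of_mem hh]
          exact mem_cls.mp hy
        · intro hx
          refine ⟨h⁻¹ x, ?_, ap_inv h x⟩
          rw [mem_cls, ← linked_of_mem hh, ap_inv]
          exact hx
      have h2 : (cls H (h i₀)).card = c := by
        rw [← h1, Finset.card_image_of_injective _ (Equiv.injective h)]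
      have h3 : ¬ Disjoint (cls H i₀) (cls H (h i₀)) := by
        intro h4
        have h5 := Finset.card_union_of_disjoint h4
        have h6 := Finset.card_le_univ (cls H i₀ ∪ cls H (h i₀))
        omega
      rw [Finset.not_disjoint_iff] at h3
      obtain ⟨x, hx, hx'⟩ := h3
      rw [h1]
      exact (cls_eq_of_linked (mem_cls.mp hx')).trans (cls_eq_of_linked (mem_cls.mp hx)).symm
    have htr : translates H (cls H i₀) ⊆ {cls H i₀} := by
      intro Q hQ
      obtain ⟨h, hh, rfl⟩ := mem_translates.mp hQ
      rw [Finset.mem_singleton]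
      exact hmem h hh
    have h1 : (translates H (cls H i₀)).card ≤ 1 := by
      have := Finset.card_le_card htr
      simpa using this
    have hcb : c + k ≤ b := hcon i₀
    have h2 : b.choose c ≤ H.index := by
      calc b.choose c ≤ H.index * (translates H (cls H i₀)).card := hcov
        _ ≤ H.index * 1 := Nat.mul_le_mul_left _ h1
        _ = H.index := mul_one _
    have h3 : b.choose c = b.choose (b - c) := (Nat.choose_symm (by omega)).symm
    have h4 : b.choose k ≤ b.choose (b - c) := choose_mono_half (by omega) (by omega)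
    omega
  · push Not at hbig
    -- the representatives
    let st : Setoid α := ⟨Linked H, ⟨Linked.refl, Linked.symm, Linked.trans⟩⟩
    let rep : α → α := fun i => (Quotient.mk st i).out
    have hrep : ∀ i, Linked H i (rep i) := by
      intro i
      have : st (rep i) i := Quotient.mk_out (s := st) i
      exact Linked.symm this
    have hrep' : ∀ i j, Linked H i j → rep i = rep j := by
      intro i j h
      have : Quotient.mk st i = Quotient.mk st j := Quotient.sound h
      simp only [rep, this]
    let S : Finset α := Finset.univ.image rep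
    have hS : ∀ r ∈ S, rep r = r := by
      intro r hr
      obtain ⟨i, -, rfl⟩ := Finset.mem_image.mp hr
      exact (hrep' _ _ (hrep i)).symm
    have hno : ∀ i j l : {x // x ∈ S}, i ≠ j → i ≠ l → j ≠ l →
        cyc i j l ∉ H.comap (ofSubtype (p := fun x => x ∈ S)) := by
      intro i j l hij hil hjl h
      rw [Subgroup.mem_comap, cyc, map_mul, ofSubtype_swap_eq, ofSubtype_swap_eq] at h
      have h1 : Linked H (i : α) j := Or.inr ⟨l, fun h => hij (Subtype.ext h),
        fun h => hil (Subtype.ext h), fun h => hjl (Subtype.ext h), h⟩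
      apply hij
      apply Subtype.ext
      rw [← hS i i.2, ← hS j j.2]
      exact hrep' _ _ h1
    have h1 := bochert _ hno
    have h2 := h1.trans (index_comap_ofSubtype_le H _)
    rw [Fintype.card_coe] at h2
    set t := S.card with ht
    -- the number of translates of a closed set
    obtain ⟨U, hU, hU4, hU2⟩ := Sup_exists_closed H (by omega) hbig
    have htr : (translates H U).card ≤ 2 ^ t := by
      rw [ht, ← Finset.card_powerset]
      apply Finset.card_le_card_of_injOn (fun V => V ∩ S)
      · intro V _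
        exact Finset.mem_coe.mpr (Finset.mem_powerset.mpr Finset.inter_subset_right)
      · intro V hV W hW hVW
        have key : ∀ V ∈ translates H U, ∀ x, x ∈ V ↔ rep x ∈ V ∩ S := by
          intro V hV x
          obtain ⟨h, hh, rfl⟩ := mem_translates.mp hV
          have hcl := Sup_closed_image hU hh
          rw [Finset.mem_inter]
          constructor
          · intro hx
            exact ⟨hcl x hx _ (hrep x), Finset.mem_image_of_mem rep (Finset.mem_univ x)⟩
          · rintro ⟨hx, -⟩
            exact hcl _ hx _ (hrep x).symm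
        ext x
        rw [key V (Finset.mem_coe.mp hV), key W (Finset.mem_coe.mp hW)]
        have hVW' : V ∩ S = W ∩ S := hVW
        rw [hVW']
    have hcov : 2 ^ U.card ≤ H.index * 2 ^ t :=
      (Sup_two_pow_le hU2).trans ((choose_le_index_mul H U).trans (Nat.mul_le_mul_left _ htr))
    have hidx8 : 2 ^ b ≤ H.index ^ 8 := by
      by_cases h8 : 8 * t ≤ b
      · have h3 : 2 ^ (8 * U.card) ≤ H.index ^ 8 * 2 ^ (8 * t) := by
          calc 2 ^ (8 * U.card) = (2 ^ U.card) ^ 8 := by rw [← pow_mul, mul_comm]
            _ ≤ (H.index * 2 ^ t) ^ 8 := Nat.pow_le_pow_left hcov 8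
            _ = H.index ^ 8 * 2 ^ (8 * t) := by rw [mul_pow, ← pow_mul, mul_comm t 8]
        have h4 : 2 ^ b * 2 ^ (8 * t) ≤ H.index ^ 8 * 2 ^ (8 * t) := by
          refine le_trans ?_ h3
          rw [← pow_add]
          exact Nat.pow_le_pow_right (by norm_num) (by omega)
        exact Nat.le_of_mul_le_mul_right h4 (by positivity)
      · have h3 : 9 ≤ (t + 1) / 2 := by omega
        have h4 : 4 ^ ((t + 1) / 2) ≤ H.index := (Sup_four_pow h3).trans h2
        calc 2 ^ b ≤ 2 ^ (16 * ((t + 1) / 2)) := Nat.pow_le_pow_right (by norm_num) (by omega)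
          _ = (4 ^ ((t + 1) / 2)) ^ 8 := by
            rw [show (4 : ℕ) = 2 ^ 2 by norm_num, ← pow_mul, ← pow_mul]
            congr 1
            ring
          _ ≤ H.index ^ 8 := Nat.pow_le_pow_left h4 8
    have h5 : H.index ^ 8 < (b.choose k) ^ 8 := Nat.pow_lt_pow_left hidx (by norm_num)
    have h6 : b.choose k ^ 8 ≤ 2 ^ b := Sup_choose_pow (by omega)
    omega

theorem thm_Sup : St_Sup := by
  intro b H k hk hb hidx
  have h1 : Fintype.card (Fin b) = b := Fintype.card_fin b
  have h2 := Sup_main H hk (by rw [h1]; exact hb) (by rw [h1]; exact hidx)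
  rw [h1] at h2
  exact h2

end Pool.Agent.SymC
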