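import Mathlib

/-!
# Circuits with modular and truncated counting gates, and their automorphisms
-/

set_option autoImplicit false

namespace Pool.Agent.SymC

/-- A circuit with inputs `ι` and gates `G`, of unbounded fan-in and arbitrary depth. -/
structure Circuit (ι G : Type) where
  /-- `acc g c`: the gate `g` has the value true when exactly `c` of the wires entering it carry
  the value true -/
  acc : G → ℕ → Prop
  /-- `wires g a`: the number of wires from the input or gate `a` to the gate `g` -/
  wires : G → ι ⊕ G → ℕ
  /-- the level of a gate -/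
  level : G → ℕ
  level_lt : ∀ g h, wires g (Sum.inr h) ≠ 0 → level h < level g
  /-- the output gate -/
  out : G

namespace Circuit

variable {ι G : Type} [Fintype ι] [Fintype G]

/-- The fan-in of a gate: the number of wires entering it. -/
def fanIn (C : Circuit ι G) (g : G) : ℕ := ∑ a, C.wires g a

/-- The number of wires entering `g` that carry the value true, if the inputs have the values `x`
and the gates the values `v`. -/
def count (C : Circuit ι G) (x : ι → Bool) (v : G → Bool) (g : G) : ℕ :=
  ∑ a, if Sum.elim x v a = true then C.wires g a else 0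

/-- `v` is the vector of the values of all gates on the input `x`. -/
def IsRun (C : Circuit ι G) (x : ι → Bool) (v : G → Bool) : Prop :=
  ∀ g, v g = true ↔ C.acc g (C.count x v g)

/-- The circuit computes the function `f`. -/
def Computes (C : Circuit ι G) (f : (ι → Bool) → Prop) : Prop :=
  ∀ x, ∃ v, C.IsRun x v ∧ (v C.out = true ↔ f x)

/-- Every gate computes a function of `c mod m`, `min(c, T)` and `min(f - c, T)`, where `f` is the
number of wires entering it, and `c` the number of those that carry the value true. -/
def Modular (m T : ℕ) (C : Circuit ι G) : Prop :=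
  ∀ g c d, c ≤ C.fanIn g → d ≤ C.fanIn g → c % m = d % m → min c T = min d T →
    min (C.fanIn g - c) T = min (C.fanIn g - d) T → (C.acc g c ↔ C.acc g d)

omit [Fintype ι] [Fintype G] in
/-- The permutations `ρ` of the inputs and `τ` of the gates form an automorphism. -/
def IsAut (C : Circuit ι G) (ρ : Equiv.Perm ι) (τ : Equiv.Perm G) : Prop :=
  (∀ g, C.acc (τ g) = C.acc g) ∧ (∀ g a, C.wires (τ g) (Sum.map ρ τ a) = C.wires g a) ∧
    τ C.out = C.out

end Circuit

/-- The number of ones. -/
def ones {n : ℕ} (x : Fin n → Bool) : ℕ := (Finset.univ.filter fun i => x i = true).card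

/-- The permutation `ρ` of the first `n` inputs extends to an automorphism of the circuit that
fixes the other inputs. -/
def Extends {n : ℕ} {ι G : Type} (C : Circuit (Fin n ⊕ ι) G) (ρ : Equiv.Perm (Fin n)) : Prop :=
  ∃ τ, C.IsAut (Equiv.sumCongr ρ 1) τ

/-- The first `n` inputs are interchangeable: each permutation of them extends to an automorphism
that fixes the other inputs. -/
def Interchangeable {n : ℕ} {ι G : Type} (C : Circuit (Fin n ⊕ ι) G) : Prop :=
  ∀ ρ : Equiv.Perm (Fin n), ∃ τ, C.IsAut (Equiv.sumCongr ρ 1) τ

/-- With the other inputs fixed to `z`, the circuit accepts an assignment of the first `n` inputs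
with `w` ones if and only if `F w` holds. -/
def Accepts {n : ℕ} {ι G : Type} [Fintype ι] [Fintype G] (C : Circuit (Fin n ⊕ ι) G)
    (z : ι → Bool) (F : ℕ → Prop) : Prop :=
  ∀ x : Fin n → Bool, ∃ v, C.IsRun (Sum.elim x z) v ∧ (v C.out = true ↔ F (ones x))

/-- The product of `m` and of the largest powers `p ^ i ≤ k` of the prime divisors `p` of `m`. -/
def period (m k : ℕ) : ℕ := m * ∏ p ∈ m.primeFactors, p ^ Nat.log p k

/-- `F w` depends only on `w` modulo `period m k` for `T + 2 * k ≤ w ≤ n - T - 2 * k`. -/
def Regular (m n k T : ℕ) (F : ℕ → Prop) : Prop :=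
  ∀ w, T + 2 * k ≤ w → w + period m k + T + 2 * k ≤ n → (F w ↔ F (w + period m k))

end Pool.Agent.SymC
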