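import Pool.Agent.Helper18.Moves
import Pool.Agent.SymC.Stmts

/-!
# Moving supports in a circuit with multiplicities
-/

set_option autoImplicit false

namespace Pool.Agent.SymC

open Equiv Equiv.Perm Finset Pool.Agent.Helper18

variable {β : Type*} [DecidableEq β] [Fintype β]

/-- The abstract data of a circuit acted on by permutations of a set `β` of variables: `W g c` is
the number of wires from the node `c` to the node `g`, `F` the value of a node on an assignment
of the variables, `Δ` the support of a node. -/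
structure WSys (β N : Type*) [DecidableEq β] [Fintype β] [DecidableEq N] [Fintype N] where
  W : N → N → ℕ
  F : N → (β → Bool) → Bool
  Δ : N → Finset β
  Act : Perm β → Perm N → Prop
  act_F : ∀ π τ, Act π τ → ∀ c u, F (τ c) u = F c (u ∘ π)
  act_Δ : ∀ π τ, Act π τ → ∀ c, Δ (τ c) = (Δ c).image π
  act_W : ∀ π τ, Act π τ → ∀ g c, W (τ g) (τ c) = W g c

variable {N : Type*} [DecidableEq N] [Fintype N]

namespace WSys

variable (Y : WSys β N)

/-- The node `g` is fixed by lifts of all even permutations fixing its support. -/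
def Supported (g : N) : Prop :=
  ∀ π : Perm β, sign π = 1 → (∀ x ∈ Y.Δ g, π x = x) → ∃ τ, Y.Act π τ ∧ τ g = g

/-- The nodes with value `v` whose support meets `B`. -/
def bad (B : Finset β) (u : β → Bool) (v : Bool) : Finset N :=
  Finset.univ.filter fun c => Y.F c u = v ∧ ¬ Disjoint (Y.Δ c) B

/-- The nodes with value `v` whose support does not meet `B`. -/
def good (B : Finset β) (u : β → Bool) (v : Bool) : Finset N :=
  Finset.univ.filter fun c => Y.F c u = v ∧ Disjoint (Y.Δ c) B

theorem mem_bad {B : Finset β} {u : β → Bool} {v : Bool} {c : N} :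
    c ∈ Y.bad B u v ↔ Y.F c u = v ∧ ¬ Disjoint (Y.Δ c) B := by
  simp [bad]

theorem mem_good {B : Finset β} {u : β → Bool} {v : Bool} {c : N} :
    c ∈ Y.good B u v ↔ Y.F c u = v ∧ Disjoint (Y.Δ c) B := by
  simp [good]

theorem dvd_bad {g : N} (hg : Y.Supported g) {B : Finset β} (hgB : Disjoint (Y.Δ g) B)
    {u : β → Bool} {a : Bool} (hu : ∀ x ∈ B, u x = a) (v : Bool) {k m : ℕ}
    (hk : ∀ c, (Y.Δ c).card < k) (hB : k + 1 ≤ B.card)
    (hm : ∀ j, 1 ≤ j → j < k → m ∣ B.card.choose j) :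
    m ∣ ∑ c ∈ Y.bad B u v, Y.W g c := by
  classical
  let f : N → Finset β := fun c => Y.Δ c ∩ B
  let T : Finset (Finset β) := (Finset.powerset B).filter fun S => 1 ≤ S.card ∧ S.card < k
  have hmaps : ∀ c ∈ Y.bad B u v, f c ∈ T := by
    intro c hc
    rw [mem_bad] at hc
    simp only [T, f, Finset.mem_filter, Finset.mem_powerset]
    refine ⟨Finset.inter_subset_right, ?_, ?_⟩
    · rw [Finset.one_le_card]
      rw [Finset.not_disjoint_iff_nonempty_inter] at hc
      exact hc.2
    · exact lt_of_le_of_lt (Finset.card_le_card Finset.inter_subset_left) (hk c)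
  rw [← Finset.sum_fiberwise_of_maps_to hmaps]
  -- group the fibres by the size of the trace
  have hmaps2 : ∀ S ∈ T, S.card ∈ Finset.Ico 1 k := by
    intro S hS
    simp only [T, Finset.mem_filter] at hS
    exact Finset.mem_Ico.mpr hS.2
  rw [← Finset.sum_fiberwise_of_maps_to hmaps2]
  apply Finset.dvd_sum
  intro j hj
  rw [Finset.mem_Ico] at hj
  have hfib : T.filter (fun S => S.card = j) = Finset.powersetCard j B := by
    ext S
    simp only [T, Finset.mem_filter, Finset.mem_powerset, Finset.mem_powersetCard]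
    constructor
    · rintro ⟨⟨h1, -⟩, h2⟩; exact ⟨h1, h2⟩
    · rintro ⟨h1, h2⟩; exact ⟨⟨h1, by omega, by omega⟩, h2⟩
  rw [hfib]
  -- all fibres over sets of size `j` have the same weight
  have hconst : ∀ S ∈ Finset.powersetCard j B, ∀ S' ∈ Finset.powersetCard j B,
      ∑ c ∈ (Y.bad B u v).filter (fun c => f c = S), Y.W g c ≤
        ∑ c ∈ (Y.bad B u v).filter (fun c => f c = S'), Y.W g c := by
    intro S hS S' hS'
    rw [Finset.mem_powersetCard] at hS hS'
    obtain ⟨π, hπ1, hπ2, hπ3⟩ := exists_even_move hS.1 hS'.1 (hS.2.trans hS'.2.symm) (by omega)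
    obtain ⟨τ, hτ, hτg⟩ := hg π hπ1 (fun x hx => hπ2 x (Finset.disjoint_left.mp hgB hx))
    have h1 : ∑ c ∈ (Y.bad B u v).filter (fun c => f c = S), Y.W g c =
        ∑ c ∈ ((Y.bad B u v).filter (fun c => f c = S)).map τ.toEmbedding, Y.W g c := by
      rw [Finset.sum_map]
      apply Finset.sum_congr rfl
      intro c _
      have h2 := Y.act_W π τ hτ g c
      rw [hτg] at h2
      exact h2.symm
    rw [h1]
    apply Finset.sum_le_sum_of_subset
    intro c' hc'
    rw [Finset.mem_map] at hc'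
    obtain ⟨c, hc, rfl⟩ := hc'
    rw [Finset.mem_filter, mem_bad] at hc
    change τ c ∈ _
    rw [Finset.mem_filter, mem_bad]
    obtain ⟨⟨h2, h3⟩, h4⟩ := hc
    have h5 : Y.Δ (τ c) ∩ B = S' := by
      have h4' : Y.Δ c ∩ B = S := h4
      rw [Y.act_Δ π τ hτ, Sys.image_inter_of_maps hπ2, h4', hπ3]
    refine ⟨⟨?_, ?_⟩, h5⟩
    · rw [Y.act_F π τ hτ, Sys.comp_eq_of_const hπ2 hu]; exact h2
    · rw [Finset.not_disjoint_iff_nonempty_inter, h5, ← Finset.card_pos]
      omega
  rcases (Finset.powersetCard j B).eq_empty_or_nonempty with he | ⟨S₀, hS₀⟩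
  · rw [he]; simp
  · have : ∀ S ∈ Finset.powersetCard j B,
        ∑ c ∈ (Y.bad B u v).filter (fun c => f c = S), Y.W g c =
        ∑ c ∈ (Y.bad B u v).filter (fun c => f c = S₀), Y.W g c := fun S hS =>
      le_antisymm (hconst S hS S₀ hS₀) (hconst S₀ hS₀ S hS)
    rw [Finset.sum_congr rfl this, Finset.sum_const, Finset.card_powersetCard, smul_eq_mul]
    exact Dvd.dvd.mul_right (hm j hj.1 hj.2) _

/-- If a wire comes from a node of value `v` whose support meets `B`, then at least `T` wires come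
from nodes of value `v` whose support does not meet `B`. -/
theorem many_good {g : N} (hg : Y.Supported g) {B : Finset β} (hgB : Disjoint (Y.Δ g) B)
    {u : β → Bool} {a : Bool} (hu : ∀ x ∈ B, u x = a) {v : Bool} {k T : ℕ}
    (hk : ∀ c, (Y.Δ c).card < k)
    (hZ : T + 2 * k ≤ (Finset.univ.filter fun x => x ∉ B ∧ u x = a).card)
    {c : N} (hc : Y.W g c ≠ 0) (hcv : Y.F c u = v) (hcB : ¬ Disjoint (Y.Δ c) B) :
    T ≤ ∑ c ∈ Y.good B u v, Y.W g c := by
  classical
  let Z : Finset β := Finset.univ.filter fun x => u x = a ∧ x ∉ Y.Δ g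
  have hBZ : B ⊆ Z := by
    intro x hx
    simp only [Z, Finset.mem_filter, Finset.mem_univ, true_and]
    exact ⟨hu x hx, fun h => Finset.disjoint_left.mp hgB h hx⟩
  have hZB : T + k + 1 ≤ (Z \ B).card := by
    have h1 : (Finset.univ.filter fun x => x ∉ B ∧ u x = a) ⊆ (Z \ B) ∪ Y.Δ g := by
      intro x hx
      simp only [Finset.mem_filter, Finset.mem_univ, true_and] at hx
      by_cases h : x ∈ Y.Δ g
      · exact Finset.mem_union_right _ h
      · apply Finset.mem_union_left
        simp only [Z, Finset.mem_sdiff, Finset.mem_filter, Finset.mem_univ, true_and]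
        exact ⟨⟨hx.2, h⟩, hx.1⟩
    have h2 := (Finset.card_le_card h1).trans (Finset.card_union_le _ _)
    have h3 := hk g
    omega
  have hZcard : (Z \ B).card ≤ Z.card := Finset.card_le_card Finset.sdiff_subset
  have hj1 : 1 ≤ (Y.Δ c ∩ Z).card := by
    rw [Finset.one_le_card]
    rw [Finset.not_disjoint_iff_nonempty_inter] at hcB
    exact hcB.mono (Finset.inter_subset_inter_left hBZ)
  have hj2 : (Y.Δ c ∩ Z).card < k :=
    lt_of_le_of_lt (Finset.card_le_card Finset.inter_subset_left) (hk c)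
  have hZu : ∀ x ∈ Z, u x = a := by
    intro x hx
    simp only [Z, Finset.mem_filter, Finset.mem_univ, true_and] at hx
    exact hx.1
  let A : Finset N := (Y.good B u v).filter fun c => Y.W g c ≠ 0
  have hsub : Finset.powersetCard (Y.Δ c ∩ Z).card (Z \ B) ⊆ A.image fun c' => Y.Δ c' ∩ Z := by
    intro S' hS'
    rw [Finset.mem_powersetCard] at hS'
    obtain ⟨π, hπ1, hπ2, hπ3⟩ := exists_even_move (B := Z) (S := Y.Δ c ∩ Z)
      Finset.inter_subset_right (hS'.1.trans Finset.sdiff_subset) hS'.2.symm (by omega)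
    obtain ⟨τ, hτ, hτg⟩ := hg π hπ1 (fun x hx => hπ2 x (by
      simp only [Z, Finset.mem_filter, Finset.mem_univ, true_and, not_and, not_not]
      intro _; exact hx))
    have h5 : Y.Δ (τ c) ∩ Z = S' := by
      rw [Y.act_Δ π τ hτ, Sys.image_inter_of_maps hπ2, hπ3]
    refine Finset.mem_image.mpr ⟨τ c, ?_, h5⟩
    rw [Finset.mem_filter, mem_good]
    refine ⟨⟨?_, ?_⟩, ?_⟩
    · rw [Y.act_F π τ hτ, Sys.comp_eq_of_const hπ2 hZu]; exact hcv
    · rw [Finset.disjoint_left]
      intro x hx hxB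
      have h1 : x ∈ Y.Δ (τ c) ∩ Z := Finset.mem_inter.mpr ⟨hx, hBZ hxB⟩
      rw [h5] at h1
      exact (Finset.mem_sdiff.mp (hS'.1 h1)).2 hxB
    · have h2 := Y.act_W π τ hτ g c
      rw [hτg] at h2
      rwa [h2]
  have h1 := (Finset.card_le_card hsub).trans Finset.card_image_le
  rw [Finset.card_powersetCard] at h1
  have h2 : (Z \ B).card ≤ (Z \ B).card.choose (Y.Δ c ∩ Z).card :=
    Sys.le_choose_of_pos hj1 (by omega)
  have h3 : A.card ≤ ∑ c ∈ Y.good B u v, Y.W g c := by
    calc A.card = ∑ c ∈ A, 1 := by simp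
      _ ≤ ∑ c ∈ A, Y.W g c := by
          apply Finset.sum_le_sum
          intro c hc
          exact Nat.one_le_iff_ne_zero.mpr (Finset.mem_filter.mp hc).2
      _ ≤ ∑ c ∈ Y.good B u v, Y.W g c := Finset.sum_le_sum_of_subset (Finset.filter_subset _ _)
  omega

/-- The number of wires carrying the value `v`. -/
def cnt (g : N) (u : β → Bool) (v : Bool) : ℕ :=
  ∑ c, if Y.F c u = v then Y.W g c else 0

theorem cnt_eq (g : N) (B : Finset β) (u : β → Bool) (v : Bool) :
    Y.cnt g u v = ∑ c ∈ Y.good B u v, Y.W g c + ∑ c ∈ Y.bad B u v, Y.W g c := by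
  classical
  rw [cnt, ← Finset.sum_filter, good, bad, ← Finset.filter_filter, ← Finset.filter_filter,
    Finset.sum_filter_add_sum_filter_not]

theorem cnt_add (g : N) (u : β → Bool) : Y.cnt g u true + Y.cnt g u false = ∑ c, Y.W g c := by
  rw [cnt, cnt, ← Finset.sum_add_distrib]
  apply Finset.sum_congr rfl
  intro c _
  cases Y.F c u <;> simp

/-- Comparison of the children values on two assignments. -/
theorem compare {g : N} (hg : Y.Supported g) {B : Finset β} (hgB : Disjoint (Y.Δ g) B)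
    {x y : β → Bool} (hx : ∀ i ∈ B, x i = false) (hy : ∀ i ∈ B, y i = true)
    {k m T : ℕ} (hk : ∀ c, (Y.Δ c).card < k)
    (hB : k + 1 ≤ B.card) (hm : ∀ j, 1 ≤ j → j < k → m ∣ B.card.choose j)
    (hZx : T + 2 * k ≤ (Finset.univ.filter fun i => i ∉ B ∧ x i = false).card)
    (hZy : T + 2 * k ≤ (Finset.univ.filter fun i => i ∉ B ∧ y i = true).card)
    (hind : ∀ c, Y.W g c ≠ 0 → Disjoint (Y.Δ c) B → Y.F c x = Y.F c y) (v : Bool) :
    Y.cnt g x v % m = Y.cnt g y v % m ∧ min (Y.cnt g x v) T = min (Y.cnt g y v) T := by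
  classical
  have hgood : ∑ c ∈ Y.good B x v, Y.W g c = ∑ c ∈ Y.good B y v, Y.W g c := by
    rw [good, good, Finset.sum_filter, Finset.sum_filter]
    apply Finset.sum_congr rfl
    intro c _
    by_cases h0 : Y.W g c = 0
    · simp [h0]
    · by_cases hd : Disjoint (Y.Δ c) B
      · rw [hind c h0 hd]
      · simp [hd]
  rw [Y.cnt_eq g B x v, Y.cnt_eq g B y v, hgood]
  have h2 := Y.dvd_bad hg hgB hx v hk hB hm
  have h3 := Y.dvd_bad hg hgB hy v hk hB hm
  refine ⟨?_, ?_⟩
  · rw [Nat.add_mod, Nat.mod_eq_zero_of_dvd h2, Nat.add_mod _ (∑ c ∈ Y.bad B y v, Y.W g c),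
      Nat.mod_eq_zero_of_dvd h3]
  · by_cases hbx : ∑ c ∈ Y.bad B x v, Y.W g c = 0
    · by_cases hby : ∑ c ∈ Y.bad B y v, Y.W g c = 0
      · rw [hbx, hby]
      · obtain ⟨c, hc, hc0⟩ := Finset.exists_ne_zero_of_sum_ne_zero hby
        rw [mem_bad] at hc
        have h4 := Y.many_good hg hgB hy hk hZy hc0 hc.1 hc.2
        omega
    · obtain ⟨c, hc, hc0⟩ := Finset.exists_ne_zero_of_sum_ne_zero hbx
      rw [mem_bad] at hc
      have h4 := Y.many_good hg hgB hx hk hZx hc0 hc.1 hc.2
      rw [hgood] at h4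
      omega

end WSys

end Pool.Agent.SymC
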