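import Pool.Agent.SymC.Stmts

/-!
# Construction of the symmetric circuit
-/

set_option autoImplicit false

namespace Pool.Agent.SymC

open Finset

section

variable (m n Q T : ℕ)

private abbrev up_SS : Type := {S : Finset (Fin n) // S.card ≤ Q}

private abbrev up_GV : Type := up_SS n Q × Bool × Fin (T + 1)

private abbrev up_GR : Type := Bool × Fin (Q + 1) × Fin (T + 1) × Option (Option (Fin m))

private abbrev up_GG : Type := up_GV n Q T ⊕ up_GV n Q T ⊕ up_GR m Q T ⊕ Fin (n + 1) ⊕ Unit

/-- the number of true gates `U` -/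
private def up_N (s : Bool) (i a w : ℕ) : ℕ :=
  if i + a ≤ (if s then w else n - w) then (if s then w else n - w).choose i else 0

/-- the value of a test, as a function of the number of true gates -/
private def up_tst (m : ℕ) (o : Option (Option (Fin m))) (c : ℕ) : Prop :=
  match o with
  | none => c ≠ 0
  | some none => c = 0
  | some (some r) => c % m ≠ r

/-- the value of a test at the weight `w` -/
private def up_val (t : up_GR m Q T) (w : ℕ) : Prop :=
  up_tst m t.2.2.2 (up_N n t.1 t.2.1 t.2.2.1 w)

open Classical in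
private noncomputable def up_wires (F : ℕ → Prop) :
    up_GG m n Q T → (Fin n ⊕ Empty) ⊕ up_GG m n Q T → ℕ
  | Sum.inl p, Sum.inl (Sum.inl j) => if j ∈ p.1.1 then 0 else 1
  | Sum.inr (Sum.inl p), Sum.inl (Sum.inl j) => if j ∈ p.1.1 then 1 else 0
  | Sum.inr (Sum.inl p), Sum.inr (Sum.inl p') => if p' = p then 1 else 0
  | Sum.inr (Sum.inr (Sum.inl t)), Sum.inr (Sum.inr (Sum.inl p)) =>
    if p.2.1 = t.1 ∧ p.2.2 = t.2.2.1 ∧ p.1.1.card = t.2.1 then 1 else 0
  | Sum.inr (Sum.inr (Sum.inr (Sum.inl u))), Sum.inr (Sum.inr (Sum.inr (Sum.inl t))) =>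
    if up_val m n Q T t u then 0 else 1
  | Sum.inr (Sum.inr (Sum.inr (Sum.inr _))), Sum.inr (Sum.inr (Sum.inr (Sum.inr (Sum.inl u)))) =>
    if F u then 0 else 1
  | _, _ => 0

private def up_level : up_GG m n Q T → ℕ
  | Sum.inl _ => 0
  | Sum.inr (Sum.inl _) => 1
  | Sum.inr (Sum.inr (Sum.inl _)) => 2
  | Sum.inr (Sum.inr (Sum.inr (Sum.inl _))) => 3
  | Sum.inr (Sum.inr (Sum.inr (Sum.inr _))) => 4

open Classical in
private noncomputable def up_acc (F : ℕ → Prop) : up_GG m n Q T → ℕ → Prop
  | Sum.inl p, c => if p.2.1 then (p.2.2 : ℕ) ≤ c else (n - p.1.1.card) - c < p.2.2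
  | Sum.inr (Sum.inl p), c => if p.2.1 then c = p.1.1.card + 1 else c = 0
  | Sum.inr (Sum.inr (Sum.inl t)), c => up_tst m t.2.2.2 c
  | Sum.inr (Sum.inr (Sum.inr (Sum.inl _))), c => c ≠ 0
  | Sum.inr (Sum.inr (Sum.inr (Sum.inr _))), c =>
    c = ∑ u : Fin (n + 1), if F u then 0 else 1

private noncomputable def up_C (F : ℕ → Prop) : Circuit (Fin n ⊕ Empty) (up_GG m n Q T) where
  acc := up_acc m n Q T F
  wires := up_wires m n Q T F
  level := up_level m n Q T
  level_lt := by
    intro g h hgh
    rcases g with p | p | t | u | o <;> rcases h with p' | p' | t' | u' | o' <;>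
      simp_all [up_wires, up_level]
  out := Sum.inr (Sum.inr (Sum.inr (Sum.inr ())))

private theorem up_sum (f : (Fin n ⊕ Empty) ⊕ up_GG m n Q T → ℕ) :
    ∑ a, f a = ∑ j : Fin n, f (Sum.inl (Sum.inl j)) +
      (∑ p : up_GV n Q T, f (Sum.inr (Sum.inl p)) +
      (∑ p : up_GV n Q T, f (Sum.inr (Sum.inr (Sum.inl p))) +
      (∑ t : up_GR m Q T, f (Sum.inr (Sum.inr (Sum.inr (Sum.inl t)))) +
      (∑ u : Fin (n + 1), f (Sum.inr (Sum.inr (Sum.inr (Sum.inr (Sum.inl u))))) +
      f (Sum.inr (Sum.inr (Sum.inr (Sum.inr (Sum.inr ()))))))))) := by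
  rw [Fintype.sum_sum_type, Fintype.sum_sum_type, Fintype.sum_sum_type, Fintype.sum_sum_type,
    Fintype.sum_sum_type, Fintype.sum_sum_type]
  simp

private theorem up_out_card (S : Finset (Fin n)) :
    ∑ j : Fin n, (if j ∈ S then 0 else 1) = n - S.card := by
  rw [Finset.sum_ite, Finset.sum_const_zero, zero_add, Finset.sum_const, smul_eq_mul, mul_one,
    Finset.filter_not, Finset.card_sdiff_of_subset (Finset.filter_subset _ _)]
  simp

private theorem up_fan_V (F : ℕ → Prop) (p : up_GV n Q T) :
    (up_C m n Q T F).fanIn (Sum.inl p) = n - p.1.1.card := by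
  unfold Circuit.fanIn
  rw [up_sum]
  simp only [up_C, up_wires, Finset.sum_const_zero, add_zero]
  exact up_out_card n p.1.1

private theorem up_fan_U (F : ℕ → Prop) (p : up_GV n Q T) :
    (up_C m n Q T F).fanIn (Sum.inr (Sum.inl p)) = p.1.1.card + 1 := by
  unfold Circuit.fanIn
  rw [up_sum]
  simp only [up_C, up_wires, Finset.sum_const_zero, add_zero]
  simp

open Classical in
private theorem up_fan_O (F : ℕ → Prop) :
    (up_C m n Q T F).fanIn (Sum.inr (Sum.inr (Sum.inr (Sum.inr ())))) =
      ∑ u : Fin (n + 1), if F u then 0 else 1 := by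
  unfold Circuit.fanIn
  rw [up_sum]
  simp only [up_C, up_wires, Finset.sum_const_zero, add_zero, zero_add]

private theorem up_modular (F : ℕ → Prop) (hT : 1 ≤ T) : (up_C m n Q T F).Modular m T := by
  intro g c d hc hd hm h1 h2
  rcases g with p | p | t | u | o
  · rw [up_fan_V] at hc hd h2
    show up_acc m n Q T F (Sum.inl p) c ↔ up_acc m n Q T F (Sum.inl p) d
    have hp := p.2.2.2
    unfold up_acc
    simp only
    split_ifs
    · omega
    · omega
  · rw [up_fan_U] at hc hd h2
    show up_acc m n Q T F (Sum.inr (Sum.inl p)) c ↔ up_acc m n Q T F (Sum.inr (Sum.inl p)) d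
    unfold up_acc
    simp only
    split_ifs
    · omega
    · omega
  · show up_tst m t.2.2.2 c ↔ up_tst m t.2.2.2 d
    unfold up_tst
    rcases t.2.2.2 with _ | _ | r
    · simp only
      omega
    · simp only
      omega
    · simp only
      rw [hm]
  · show c ≠ 0 ↔ d ≠ 0
    omega
  · obtain ⟨⟩ := o
    rw [up_fan_O] at hc hd h2
    unfold up_C up_acc
    simp only
    omega

/-- the set of ones -/
private def up_X {n : ℕ} (x : Fin n → Bool) : Finset (Fin n) := univ.filter fun i => x i = true

private def up_in {n : ℕ} (x : Fin n → Bool) (S : Finset (Fin n)) : ℕ :=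
  ∑ j : Fin n, if x j = true then (if j ∈ S then 1 else 0) else 0

private def up_out {n : ℕ} (x : Fin n → Bool) (S : Finset (Fin n)) : ℕ :=
  ∑ j : Fin n, if x j = true then (if j ∈ S then 0 else 1) else 0

private theorem up_in_eq {n : ℕ} (x : Fin n → Bool) (S : Finset (Fin n)) :
    up_in x S = (S ∩ up_X x).card := by
  unfold up_in up_X
  rw [← Finset.sum_filter, Finset.sum_ite, Finset.sum_const_zero, add_zero, Finset.sum_const,
    smul_eq_mul, mul_one]
  congr 1
  ext j
  simp [and_comm]

private theorem up_out_eq {n : ℕ} (x : Fin n → Bool) (S : Finset (Fin n)) :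
    up_out x S = (up_X x \ S).card := by
  unfold up_out up_X
  rw [← Finset.sum_filter, Finset.sum_ite, Finset.sum_const_zero, zero_add, Finset.sum_const,
    smul_eq_mul, mul_one]
  congr 1
  ext j
  simp

open Classical in
private noncomputable def up_vV {n : ℕ} (x : Fin n → Bool) (p : up_GV n Q T) : Bool :=
  decide (if p.2.1 then (p.2.2 : ℕ) ≤ up_out x p.1.1 else (n - p.1.1.card) - up_out x p.1.1 < p.2.2)

open Classical in
private noncomputable def up_vU {n : ℕ} (x : Fin n → Bool) (p : up_GV n Q T) : Bool :=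
  decide (if p.2.1 then up_in x p.1.1 + (if up_vV Q T x p = true then 1 else 0) = p.1.1.card + 1
    else up_in x p.1.1 + (if up_vV Q T x p = true then 1 else 0) = 0)

private theorem up_vU_iff {n : ℕ} (x : Fin n → Bool) (p : up_GV n Q T) :
    up_vU Q T x p = true ↔ p.1.1 ⊆ (if p.2.1 then up_X x else (up_X x)ᶜ) ∧
      p.1.1.card + p.2.2 ≤ (if p.2.1 then (up_X x).card else n - (up_X x).card) := by
  obtain ⟨⟨S, hS⟩, s, a⟩ := p
  have h1 := Finset.card_sdiff_add_card_inter (up_X x) S
  have h2 : (up_X x ∩ S).card = (S ∩ up_X x).card := by rw [Finset.inter_comm]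
  have h3 : (S ∩ up_X x).card ≤ S.card := Finset.card_le_card Finset.inter_subset_left
  have h4 : (up_X x).card ≤ n := by
    have := Finset.card_le_univ (up_X x)
    simpa using this
  cases s
  · unfold up_vU up_vV
    simp only [Bool.false_eq_true, if_false, decide_eq_true_eq, up_in_eq, up_out_eq]
    have h5 : S ⊆ (up_X x)ᶜ ↔ (S ∩ up_X x).card = 0 := by
      rw [Finset.card_eq_zero, ← Finset.disjoint_iff_inter_eq_empty,
        Finset.subset_compl_iff_disjoint_right]
    rw [h5]
    have h6 : (S ∩ up_X x).card = 0 → S.card + (up_X x).card ≤ n := by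
      intro h
      have h7 : Disjoint S (up_X x) := by
        rw [Finset.disjoint_iff_inter_eq_empty, ← Finset.card_eq_zero]
        exact h
      rw [← Finset.card_union_of_disjoint h7]
      have := Finset.card_le_univ (S ∪ up_X x)
      simpa using this
    constructor
    · intro h
      split_ifs at h with h7
      have h8 : (S ∩ up_X x).card = 0 := by omega
      have h9 := h6 h8
      refine ⟨h8, ?_⟩
      omega
    · rintro ⟨h7, h8⟩
      have h9 := h6 h7
      have h10 : ¬ (n - S.card - (up_X x \ S).card < (a : ℕ)) := by omega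
      simp [h10, h7]
  · unfold up_vU up_vV
    simp only [if_true, decide_eq_true_eq, up_in_eq, up_out_eq]
    have h5 : S ⊆ up_X x ↔ (S ∩ up_X x).card = S.card := by
      constructor
      · intro h
        rw [Finset.inter_eq_left.2 h]
      · intro h
        have h6 := Finset.eq_of_subset_of_card_le (Finset.inter_subset_left (s₁ := S)
          (s₂ := up_X x)) h.ge
        exact Finset.inter_eq_left.1 h6
    rw [h5]
    constructor
    · intro h
      split_ifs at h with h7
      · exact ⟨by omega, by omega⟩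
      · omega
    · rintro ⟨h7, h8⟩
      rw [if_pos (by omega)]
      omega

private theorem up_count {n : ℕ} (x : Fin n → Bool) (s : Bool) (i : Fin (Q + 1))
    (a : Fin (T + 1)) :
    (∑ p : up_GV n Q T, if up_vU Q T x p = true then
      (if p.2.1 = s ∧ p.2.2 = a ∧ p.1.1.card = i then 1 else 0) else 0) =
      up_N n s i a (ones x) := by
  classical
  have e1 : (∑ p : up_GV n Q T, if up_vU Q T x p = true then
      (if p.2.1 = s ∧ p.2.2 = a ∧ p.1.1.card = i then 1 else 0) else 0) =
      (univ.filter fun p : up_GV n Q T => up_vU Q T x p = true ∧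
        (p.2.1 = s ∧ p.2.2 = a ∧ p.1.1.card = i)).card := by
    rw [Finset.card_filter]
    refine Finset.sum_congr rfl fun p _ => ?_
    by_cases h1 : up_vU Q T x p = true
    · simp [h1]
    · simp [h1]
  rw [e1]
  have hone : ones x = (up_X x).card := rfl
  have hcomp : ((up_X x)ᶜ).card = n - (up_X x).card := by
    rw [Finset.card_compl, Fintype.card_fin]
  set Y : Finset (Fin n) := if s then up_X x else (up_X x)ᶜ with hY
  have hYc : Y.card = if s then ones x else n - ones x := by
    rw [hY]
    cases s
    · simp [hcomp, hone]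
    · simp [hone]
  unfold up_N
  rw [← hYc]
  split_ifs with h
  · rw [← Finset.card_powersetCard]
    symm
    refine Finset.card_bij (fun S hS => (⟨⟨S, ?_⟩, s, a⟩ : up_GV n Q T)) ?_ ?_ ?_
    · have h1 := (Finset.mem_powersetCard.1 hS).2
      have := i.2
      omega
    · intro S hS
      obtain ⟨h1, h2⟩ := Finset.mem_powersetCard.1 hS
      rw [Finset.mem_filter]
      refine ⟨Finset.mem_univ _, ?_, rfl, rfl, h2⟩
      rw [up_vU_iff]
      have h9 : S.card + (a : ℕ) ≤ (if s then (up_X x).card else n - (up_X x).card) := by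
        rw [h2, ← hone, ← hYc]
        exact h
      exact ⟨h1, h9⟩
    · intro S hS S' hS' hSS
      have := congrArg (fun p : up_GV n Q T => p.1.1) hSS
      exact this
    · rintro ⟨⟨S, hS⟩, s', a'⟩ hp
      rw [Finset.mem_filter] at hp
      obtain ⟨-, h1, h2, h3, h4⟩ := hp
      simp only at h2 h3 h4
      subst h2 h3
      rw [up_vU_iff] at h1
      exact ⟨S, Finset.mem_powersetCard.2 ⟨h1.1, h4⟩, rfl⟩
  · rw [Finset.card_eq_zero, Finset.filter_eq_empty_iff]
    rintro ⟨⟨S, hS⟩, s', a'⟩ - ⟨h1, h2, h3, h4⟩
    simp only at h2 h3 h4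
    subst h2 h3
    rw [up_vU_iff] at h1
    apply h
    rw [hYc, hone]
    have h5 := h1.2
    simp only at h5
    omega

open Classical in
private noncomputable def up_v {n : ℕ} (F : ℕ → Prop) (x : Fin n → Bool) :
    up_GG m n Q T → Bool
  | Sum.inl p => up_vV Q T x p
  | Sum.inr (Sum.inl p) => up_vU Q T x p
  | Sum.inr (Sum.inr (Sum.inl t)) => decide (up_val m n Q T t (ones x))
  | Sum.inr (Sum.inr (Sum.inr (Sum.inl u))) =>
    decide (∃ t, ¬ up_val m n Q T t u ∧ up_val m n Q T t (ones x))
  | Sum.inr (Sum.inr (Sum.inr (Sum.inr _))) =>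
    decide (∀ u : Fin (n + 1), ¬ F u → ∃ t, ¬ up_val m n Q T t u ∧ up_val m n Q T t (ones x))

private theorem up_cnt {n : ℕ} (F : ℕ → Prop) (x : Fin n → Bool) (z : Empty → Bool)
    (g : up_GG m n Q T) :
    (up_C m n Q T F).count (Sum.elim x z) (up_v m Q T F x) g =
      (∑ j : Fin n, if x j = true then up_wires m n Q T F g (Sum.inl (Sum.inl j)) else 0) +
      ((∑ p, if up_vV Q T x p = true then up_wires m n Q T F g (Sum.inr (Sum.inl p)) else 0) +
      ((∑ p, if up_vU Q T x p = true then
        up_wires m n Q T F g (Sum.inr (Sum.inr (Sum.inl p))) else 0) +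
      ((∑ t, if up_v m Q T F x (Sum.inr (Sum.inr (Sum.inl t))) = true then
        up_wires m n Q T F g (Sum.inr (Sum.inr (Sum.inr (Sum.inl t)))) else 0) +
      ((∑ u : Fin (n + 1), if up_v m Q T F x (Sum.inr (Sum.inr (Sum.inr (Sum.inl u)))) = true then
        up_wires m n Q T F g (Sum.inr (Sum.inr (Sum.inr (Sum.inr (Sum.inl u))))) else 0) +
      if up_v m Q T F x (Sum.inr (Sum.inr (Sum.inr (Sum.inr ())))) = true then
        up_wires m n Q T F g (Sum.inr (Sum.inr (Sum.inr (Sum.inr (Sum.inr ()))))) else 0)))) :=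
  up_sum m n Q T (fun a => if Sum.elim (Sum.elim x z) (up_v m Q T F x) a = true then
    (up_C m n Q T F).wires g a else 0)

private theorem up_run {n : ℕ} (F : ℕ → Prop) (x : Fin n → Bool) (z : Empty → Bool) :
    (up_C m n Q T F).IsRun (Sum.elim x z) (up_v m Q T F x) := by
  classical
  intro g
  rw [up_cnt]
  rcases g with p | p | t | u | o
  · have e1 : (∑ j : Fin n, if x j = true then
        up_wires m n Q T F (Sum.inl p) (Sum.inl (Sum.inl j)) else 0) = up_out x p.1.1 := rfl
    rw [e1]
    simp only [up_wires, Finset.sum_const_zero, add_zero, ite_self]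
    show up_vV Q T x p = true ↔ up_acc m n Q T F (Sum.inl p) (up_out x p.1.1)
    unfold up_vV up_acc
    simp only [decide_eq_true_eq]
  · have e0 : (∑ j : Fin n, if x j = true then
        up_wires m n Q T F (Sum.inr (Sum.inl p)) (Sum.inl (Sum.inl j)) else 0) =
        up_in x p.1.1 := rfl
    rw [e0]
    simp only [up_wires, Finset.sum_const_zero, add_zero, ite_self]
    have e1 : (∑ p' : up_GV n Q T, if up_vV Q T x p' = true then
        (if p' = p then 1 else 0) else 0) = if up_vV Q T x p = true then 1 else 0 := by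
      rw [Finset.sum_eq_single p]
      · simp
      · intro b _ hb
        simp [hb]
      · intro h
        exact absurd (Finset.mem_univ p) h
    rw [e1]
    show up_vU Q T x p = true ↔ up_acc m n Q T F (Sum.inr (Sum.inl p)) (up_in x p.1.1 +
      if up_vV Q T x p = true then 1 else 0)
    unfold up_vU up_acc
    simp only [decide_eq_true_eq]
  · have e1 := up_count Q T x t.1 t.2.1 t.2.2.1
    simp only [up_wires, Finset.sum_const_zero, add_zero, ite_self, zero_add]
    rw [e1]
    show decide (up_val m n Q T t (ones x)) = true ↔ up_tst m t.2.2.2 _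
    rw [decide_eq_true_eq]
    rfl
  · simp only [up_wires, Finset.sum_const_zero, add_zero, ite_self, zero_add]
    show decide (∃ t, ¬ up_val m n Q T t u ∧ up_val m n Q T t (ones x)) = true ↔ _ ≠ 0
    rw [decide_eq_true_eq]
    constructor
    · rintro ⟨t, h1, h2⟩
      have h3 : up_v m Q T F x (Sum.inr (Sum.inr (Sum.inl t))) = true := by
        show decide (up_val m n Q T t (ones x)) = true
        rw [decide_eq_true_eq]
        exact h2
      have h4 : 0 < ∑ t, if up_v m Q T F x (Sum.inr (Sum.inr (Sum.inl t))) = true then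
          (if up_val m n Q T t u then 0 else 1) else 0 := by
        refine lt_of_lt_of_le ?_ (Finset.single_le_sum (fun _ _ => Nat.zero_le _)
          (Finset.mem_univ t))
        rw [if_pos h3, if_neg h1]
        exact Nat.one_pos
      exact h4.ne'
    · intro h
      obtain ⟨t, -, ht⟩ := Finset.exists_ne_zero_of_sum_ne_zero h
      refine ⟨t, ?_, ?_⟩
      · intro h1
        rw [if_pos h1, ite_self] at ht
        exact ht rfl
      · by_contra h1
        have h3 : ¬ up_v m Q T F x (Sum.inr (Sum.inr (Sum.inl t))) = true := by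
          show ¬ decide (up_val m n Q T t (ones x)) = true
          rw [decide_eq_true_eq]
          exact h1
        rw [if_neg h3] at ht
        exact ht rfl
  · simp only [up_wires, Finset.sum_const_zero, add_zero, ite_self, zero_add]
    show decide (∀ u : Fin (n + 1), ¬ F u → ∃ t, ¬ up_val m n Q T t u ∧
      up_val m n Q T t (ones x)) = true ↔ _ = _
    rw [decide_eq_true_eq]
    have hle : ∀ u : Fin (n + 1), (if up_v m Q T F x (Sum.inr (Sum.inr (Sum.inr (Sum.inl u)))) = true
        then (if F u then 0 else 1) else 0) ≤ (if F u then 0 else 1) := by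
      intro u
      split_ifs <;> simp
    have hD : ∀ u : Fin (n + 1), up_v m Q T F x (Sum.inr (Sum.inr (Sum.inr (Sum.inl u)))) = true ↔
        ∃ t, ¬ up_val m n Q T t u ∧ up_val m n Q T t (ones x) := by
      intro u
      show decide (∃ t, ¬ up_val m n Q T t u ∧ up_val m n Q T t (ones x)) = true ↔ _
      rw [decide_eq_true_eq]
    constructor
    · intro h
      refine Finset.sum_congr rfl fun u _ => ?_
      by_cases hF : F u
      · rw [if_pos hF, ite_self]
      · rw [if_pos ((hD u).2 (h u hF))]
    · intro h u hF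
      rw [← hD]
      by_contra h1
      have h2 := (Finset.sum_eq_sum_iff_of_le fun u _ => hle u).1 h u (Finset.mem_univ u)
      rw [if_neg h1, if_neg hF] at h2
      exact absurd h2 (by norm_num)

private theorem up_N_zero (s : Bool) (i a w : ℕ) :
    up_N n s i a w ≠ 0 ↔ i + a ≤ (if s then w else n - w) := by
  unfold up_N
  constructor
  · intro h
    by_contra h1
    rw [if_neg h1] at h
    exact h rfl
  · intro h
    rw [if_pos h]
    exact (Nat.choose_pos (by omega)).ne'

private theorem up_accepts {n : ℕ} (F : ℕ → Prop) (hm : 1 ≤ m)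
    (hF : ∀ u w, u ≤ n → w ≤ n → (∀ j ≤ Q + T, (j ≤ u ↔ j ≤ w)) →
      (∀ j ≤ Q + T, (j ≤ n - u ↔ j ≤ n - w)) →
      (∀ i ≤ Q, u.choose i % m = w.choose i % m) → (F u ↔ F w)) :
    Accepts (up_C m n Q T F) (fun e => e.elim) F := by
  classical
  intro x
  refine ⟨up_v m Q T F x, up_run m Q T F x _, ?_⟩
  show decide (∀ u : Fin (n + 1), ¬ F u → ∃ t, ¬ up_val m n Q T t u ∧
      up_val m n Q T t (ones x)) = true ↔ F (ones x)
  rw [decide_eq_true_eq]
  have hw : ones x ≤ n := by
    have h0 := Finset.card_le_univ (up_X x)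
    rw [Fintype.card_fin] at h0
    exact h0
  constructor
  · intro h
    by_contra h1
    obtain ⟨t, h2, h3⟩ := h ⟨ones x, by omega⟩ h1
    exact h2 h3
  · intro h u hu
    by_contra h1
    push Not at h1
    have h2 : ∀ (s : Bool) (i : Fin (Q + 1)) (a : Fin (T + 1)),
        (up_N n s i a u ≠ 0 ↔ up_N n s i a (ones x) ≠ 0) := by
      intro s i a
      constructor
      · intro h3
        exact h1 (s, i, a, some none) h3
      · intro h3 h4
        exact h1 (s, i, a, none) (fun h5 => h5 h4) h3
    have h3 : ∀ (s : Bool), ∀ j ≤ Q + T, (j ≤ (if s then (u : ℕ) else n - u) ↔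
        j ≤ (if s then ones x else n - ones x)) := by
      intro s j hj
      have h4 := h2 s ⟨min j Q, by omega⟩ ⟨j - min j Q, by omega⟩
      rw [up_N_zero, up_N_zero] at h4
      have h5 : min j Q + (j - min j Q) = j := by omega
      simp only [h5] at h4
      exact h4
    have h4 : F u ↔ F (ones x) := by
      refine hF u (ones x) (by omega) hw ?_ ?_ ?_
      · intro j hj
        have := h3 true j hj
        simpa using this
      · intro j hj
        have := h3 false j hj
        simpa using this
      · intro i hi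
        have h5 : ∀ w : ℕ, up_N n true i 0 w = w.choose i := by
          intro w
          unfold up_N
          simp only [if_true, add_zero]
          split_ifs with h6
          · rfl
          · rw [Nat.choose_eq_zero_of_lt (by omega)]
        have h6 := h1 (true, ⟨i, by omega⟩, ⟨0, by omega⟩,
          some (some ⟨(u : ℕ).choose i % m, Nat.mod_lt _ (by omega)⟩))
        have h7 : ¬ (up_N n true i 0 (ones x) % m ≠ (u : ℕ).choose i % m) := by
          apply h6
          show ¬ (up_N n true i 0 u % m ≠ (u : ℕ).choose i % m)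
          rw [h5]
          exact fun h8 => h8 rfl
        rw [h5] at h7
        push Not at h7
        exact h7.symm
    exact hu (h4.2 h)

private theorem up_aut (F : ℕ → Prop) : Interchangeable (up_C m n Q T F) := by
  classical
  intro ρ
  have hcard : ∀ S : Finset (Fin n), (S.map ρ.toEmbedding).card = S.card := fun S =>
    Finset.card_map _
  let σ : Equiv.Perm (up_SS n Q) := (Equiv.finsetCongr ρ).subtypeEquiv (fun S => by
    rw [Equiv.finsetCongr_apply, hcard])
  have hσ : ∀ S : up_SS n Q, (σ S).1 = S.1.map ρ.toEmbedding := fun S => rfl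
  refine ⟨Equiv.sumCongr (Equiv.prodCongr σ (Equiv.refl _))
    (Equiv.sumCongr (Equiv.prodCongr σ (Equiv.refl _)) (Equiv.refl _)), ?_, ?_, rfl⟩
  · intro g
    rcases g with p | p | t | u | o
    · show up_acc m n Q T F (Sum.inl (σ p.1, p.2)) = up_acc m n Q T F (Sum.inl p)
      funext c
      unfold up_acc
      simp only [hσ, hcard]
    · show up_acc m n Q T F (Sum.inr (Sum.inl (σ p.1, p.2))) =
        up_acc m n Q T F (Sum.inr (Sum.inl p))
      funext c
      unfold up_acc
      simp only [hσ, hcard]
    · rfl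
    · rfl
    · rfl
  · intro g a
    rcases g with p | p | t | u | o <;> rcases a with (j | e) | (p' | p' | t' | u' | o')
    case inl.inl.inl =>
      show up_wires m n Q T F (Sum.inl (σ p.1, p.2)) (Sum.inl (Sum.inl (ρ j))) =
        up_wires m n Q T F (Sum.inl p) (Sum.inl (Sum.inl j))
      unfold up_wires
      simp only [hσ]
      have : ρ j ∈ p.1.1.map ρ.toEmbedding ↔ j ∈ p.1.1 := by
        rw [Finset.mem_map_equiv, Equiv.symm_apply_apply]
      simp only [this]
    case inr.inl.inl.inl =>
      show up_wires m n Q T F (Sum.inr (Sum.inl (σ p.1, p.2))) (Sum.inl (Sum.inl (ρ j))) =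
        up_wires m n Q T F (Sum.inr (Sum.inl p)) (Sum.inl (Sum.inl j))
      unfold up_wires
      simp only [hσ]
      have : ρ j ∈ p.1.1.map ρ.toEmbedding ↔ j ∈ p.1.1 := by
        rw [Finset.mem_map_equiv, Equiv.symm_apply_apply]
      simp only [this]
    case inr.inl.inr.inl =>
      show up_wires m n Q T F (Sum.inr (Sum.inl (σ p.1, p.2))) (Sum.inr (Sum.inl (σ p'.1, p'.2))) =
        up_wires m n Q T F (Sum.inr (Sum.inl p)) (Sum.inr (Sum.inl p'))
      unfold up_wires
      have : ((σ p'.1, p'.2) : up_GV n Q T) = (σ p.1, p.2) ↔ p' = p := by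
        constructor
        · intro h
          have h1 := congrArg Prod.fst h
          have h2 := congrArg Prod.snd h
          exact Prod.ext (σ.injective h1) h2
        · intro h
          rw [h]
      simp only [this]
    case inr.inr.inl.inr.inr.inl =>
      show up_wires m n Q T F (Sum.inr (Sum.inr (Sum.inl t)))
        (Sum.inr (Sum.inr (Sum.inl (σ p'.1, p'.2)))) =
        up_wires m n Q T F (Sum.inr (Sum.inr (Sum.inl t))) (Sum.inr (Sum.inr (Sum.inl p')))
      unfold up_wires
      simp only [hσ, hcard]
    all_goals rfl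

private theorem up_card_SS : Fintype.card (up_SS n Q) ≤ ∑ j ∈ range (Q + 1), n.choose j := by
  classical
  rw [Fintype.card_subtype]
  rw [Finset.card_eq_sum_card_fiberwise (f := Finset.card) (t := range (Q + 1))]
  · refine Finset.sum_le_sum fun j _ => ?_
    have h1 : (powersetCard j (univ : Finset (Fin n))).card = n.choose j := by
      rw [Finset.card_powersetCard, Finset.card_univ, Fintype.card_fin]
    rw [← h1]
    refine Finset.card_le_card ?_
    intro S hS
    rw [Finset.mem_filter] at hS
    exact Finset.mem_powersetCard.2 ⟨Finset.subset_univ _, hS.2⟩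
  · intro S hS
    rw [Finset.mem_coe, Finset.mem_filter] at hS
    rw [Finset.mem_coe, Finset.mem_range]
    have := hS.2
    omega

private theorem up_card : Fintype.card (up_GG m n Q T) ≤
    4 * (∑ j ∈ Finset.range (Q + 1), n.choose j) * (T + 1) +
        2 * (Q + 1) * (T + 1) * (m + 2) + (n + 2) := by
  have h1 := up_card_SS n Q
  have h2 : Fintype.card (up_GG m n Q T) = 4 * Fintype.card (up_SS n Q) * (T + 1) +
        2 * (Q + 1) * (T + 1) * (m + 2) + (n + 2) := by
    simp only [Fintype.card_sum, Fintype.card_prod, Fintype.card_bool, Fintype.card_fin,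
      Fintype.card_option, Fintype.card_unit]
    ring
  rw [h2]
  gcongr

end

theorem thm_Up : St_Up := by
  intro m n Q T F hm hT hF
  refine ⟨up_GG m n Q T, inferInstance, up_C m n Q T F, up_aut m n Q T F,
    up_modular m n Q T F hT, ?_, up_card m n Q T, up_accepts m Q T F hm hF⟩
  intro g
  show up_level m n Q T g < 5
  rcases g with p | p | t | u | o <;> simp [up_level]

end Pool.Agent.SymC
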